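import Pool.Agent.TH958.T9.Ub
import Pool.Agent.TH958.T8.Fin

/-!
Rank and order of vanishing for Legendre's curve `y ^ 2 = x (x - 1) (x - h ^ d)`, `d` a divisor of
`p ^ ν + 1`, over function fields.
-/

set_option autoImplicit false
set_option linter.all false
set_option maxHeartbeats 4000000

open WeierstrassCurve WeierstrassCurve.Affine Polynomial FF
open scoped Classical

namespace Pool.Agent.TH958.T9

open Pool.Agent.W343.BSD Pool.Agent.W309.RK
open Pool.Agent.TH958.T4 (six_ne)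
open Pool.Agent.TH958.T8 (Adm facts disc_ne j_ne RankOrder)

theorem main {p ν d : ℕ} (hp : p.Prime) (hp5 : 5 ≤ p) (hν : 1 ≤ ν) (hd : d ∣ p ^ ν + 1)
    {k K : Type} [Field k] [Finite k] [Field K] [Algebra k K] [FF.IsFF k K] {n : ℕ}
    (hcard : Nat.card k = p ^ (2 * ν * n))
    (hk : ∀ x : K, IsAlgebraic k x → x ∈ (algebraMap k K).range)
    (hcl : Odd (S.classNumber k K)) {h : K} (hA : Adm k d h) :
    RankOrder k (rk d) (aOf 1 (h ^ d)) (bOf 1 (h ^ d)) := by
  have : Fact p.Prime := ⟨hp⟩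
  have hch : CharP k p := charP_of_card hp hcard
  obtain ⟨⟨i, hi⟩, ω, hω⟩ := exists_prim_and_i (p := p) (by omega) hcard
  have h6 : (6 : k) ≠ 0 := six_ne hp hp5
  obtain ⟨e, he⟩ := hd
  have hd0 : 0 < d := Nat.pos_of_mul_pos_right (by rw [← he]; omega)
  have hpo : Odd (p ^ ν) := (hp.odd_of_ne_two (by omega)).pow
  obtain ⟨m, hm⟩ : ∃ m, p ^ ν + 1 = 2 * m := by
    obtain ⟨r, hr⟩ := hpo
    exact ⟨r + 1, by rw [hr]; ring⟩
  have hδ : IsPrimitiveRoot (ω ^ e) d := hω.pow (by omega) (by rw [he, mul_comm])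
  obtain ⟨h2K, h3K, hh0, hhc, hne⟩ := facts h6 hd0 hA
  have hht : Transcendental k h := by
    intro hal
    obtain ⟨c, hc⟩ := hk h hal
    exact hhc c hc.symm
  have hlow := lower h6 hν hm he hi hω hht
  have hc : constDeg k K = 1 := T4.constDeg_eq_one hk
  have hup : ∀ M : ℕ, S.VanishesTo k (aOf 1 (h ^ d)) (bOf 1 (h ^ d)) M → M ≤ rk d := by
    intro M hM
    exact upper h6 hc hcl hd0 hδ hA M hM
  exact ⟨⟨disc_ne h6 hd0 hA, j_ne h6 hd0 hA⟩, hlow, hup, T5.equalities hlow hup⟩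

end Pool.Agent.TH958.T9
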