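import Pool.Agent.TH958.T9.Kum

/-!
Independent points on Legendre's curve `y ^ 2 = x (x - 1) (x - t ^ d)` over `k(t)` and its pullbacks,
for all divisors `d` of `p ^ ν + 1`.
-/

set_option autoImplicit false
set_option linter.all false
set_option maxHeartbeats 4000000

open WeierstrassCurve WeierstrassCurve.Affine Polynomial
open scoped Classical

namespace Pool.Agent.TH958.T9

open Pool.Agent.W309.RK
open Pool.Agent.TH958.T8 (IsOrd hasRoot_base crv card_two_of_eq)
open Pool.Agent.TH115.GD (Pt act incl act_inj)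

/-- The rank. -/
def rk (d : ℕ) : ℕ := if Even d then d - 2 else d - 1

section phi

variable {k : Type} [Field k]

/-- polynomials as rational functions -/
noncomputable def A (p : k[X]) : RatFunc k := algebraMap k[X] (RatFunc k) p

theorem A_inj : Function.Injective (A (k := k)) := RatFunc.algebraMap_injective k

theorem A_C (c : k) : A (C c) = algebraMap k (RatFunc k) c := by
  rw [IsScalarTower.algebraMap_apply k k[X] (RatFunc k)]
  rfl

/-- The embedding `f(t) ↦ f(s ^ e)`. -/
noncomputable def phi {e : ℕ} (he : 0 < e) : RatFunc k →+* RatFunc k :=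
  IsFractionRing.lift (A := k[X]) (K := RatFunc k)
    (g := (algebraMap k[X] (RatFunc k)).comp (expand k e).toRingHom)
    ((RatFunc.algebraMap_injective k).comp (expand_injective he))

theorem phi_A {e : ℕ} (he : 0 < e) (p : k[X]) : phi he (A p) = A (expand k e p) :=
  IsFractionRing.lift_algebraMap _ p

theorem splits {e : ℕ} (he : 0 < e) {ε : k} (hε : IsPrimitiveRoot ε e) :
    ((X ^ e - C (A (X : k[X])) : (RatFunc k)[X]).map (phi he)).Splits := by
  rw [Polynomial.map_sub, Polynomial.map_pow, map_X, map_C, phi_A, expand_X]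
  have hζ : IsPrimitiveRoot (algebraMap k (RatFunc k) ε) e :=
    hε.map_of_injective (algebraMap k (RatFunc k)).injective
  exact X_pow_sub_C_splits_of_isPrimitiveRoot hζ (α := A X) (by
    unfold A
    rw [← map_pow])

/-- the irreducible polynomials `X - c` -/
theorem irr (c : k) : Irreducible (X - C c : k[X]) := irreducible_X_sub_C c

theorem isOrd_at (c : k) : IsOrd (ordAt (X - C c : k[X]) (irr c)) := ordAt_mul _ _

theorem ordAt_const (π : k[X]) (hπ : Irreducible π) {c : k} (hc : c ≠ 0) : ordAt π hπ (A (C c)) = 0 :=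
  ordAt_of_not_dvd π hπ (fun hdv => hπ.not_isUnit
    (isUnit_of_dvd_unit hdv (isUnit_C.2 (isUnit_iff_ne_zero.2 hc))))

/-- the order of `s ^ e - z` at `s = s₀` -/
theorem ord_val {e : ℕ} (he : (e : k) ≠ 0) {s₀ : k} (hs : s₀ ≠ 0) (z : k) :
    ((ordAt (X - C s₀ : k[X]) (irr s₀) (A (X ^ e - C z)) : ℤ) : ZMod 2) =
      if s₀ ^ e = z then 1 else 0 := by
  by_cases hz : s₀ ^ e = z
  · rw [if_pos hz]
    have hroot : (X ^ e - C z : k[X]).IsRoot s₀ := by
      rw [IsRoot, eval_sub, eval_pow, eval_X, eval_C, hz, sub_self]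
    obtain ⟨q, hq⟩ := dvd_iff_isRoot.2 hroot
    have hz0 : z ≠ 0 := by
      rw [← hz]
      exact pow_ne_zero _ hs
    have hsq := (separable_X_pow_sub_C z he hz0).squarefree
    have hp0 : (X ^ e - C z : k[X]) ≠ 0 := hsq.ne_zero
    have hq0 : q ≠ 0 := by
      rintro rfl
      rw [mul_zero] at hq
      exact hp0 hq
    have hnd : ¬ (X - C s₀ : k[X]) ∣ q := by
      rintro ⟨r, hr⟩
      apply (irr s₀).not_isUnit
      apply hsq
      exact ⟨r, by rw [hq, hr]; ring⟩
    have e1 : A (X ^ e - C z) = A (X - C s₀) * A q := by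
      rw [hq]
      exact map_mul _ _ _
    rw [e1, isOrd_at s₀ _ _ (fun h0 => (irr s₀).ne_zero (A_inj (h0.trans (map_zero _).symm)))
      (fun h0 => hq0 (A_inj (h0.trans (map_zero _).symm)))]
    have e2 : ordAt (X - C s₀ : k[X]) (irr s₀) (A (X - C s₀)) = -1 := ordAt_self _ _
    have e3 : ordAt (X - C s₀ : k[X]) (irr s₀) (A q) = 0 := ordAt_of_not_dvd _ _ hnd
    rw [e2, e3]
    decide
  · rw [if_neg hz]
    have hnd : ¬ (X - C s₀ : k[X]) ∣ (X ^ e - C z) := by
      rw [dvd_iff_isRoot, IsRoot, eval_sub, eval_pow, eval_X, eval_C]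
      exact sub_ne_zero.2 hz
    have e3 : ordAt (X - C s₀ : k[X]) (irr s₀) (A (X ^ e - C z)) = 0 := ordAt_of_not_dvd _ _ hnd
    rw [e3, Int.cast_zero]

end phi

section rat

variable {k : Type} [Field k]

theorem lower_rat (h6 : (6 : k) ≠ 0) {p : ℕ} [Fact p.Prime] [CharP k p] {ν m e d : ℕ} (hν : 1 ≤ ν)
    (hm : p ^ ν + 1 = 2 * m) (hed : p ^ ν + 1 = d * e) {i : k} (hi : i ^ 2 = -1) {ω : k}
    (hω : IsPrimitiveRoot ω (p ^ ν + 1)) :
    ∃ P : Fin (rk d) → Pt (crv d (A (X : k[X]))) (RatFunc k), LinearIndependent ℤ P := by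
  have h2 : (2 : k) ≠ 0 := fun e => h6 (by linear_combination 3 * e)
  have h3 : (3 : k) ≠ 0 := fun e => h6 (by linear_combination 2 * e)
  have h2K : (2 : RatFunc k) ≠ 0 := by
    have : algebraMap k (RatFunc k) 2 ≠ 0 := by simpa using h2
    rwa [map_ofNat] at this
  have h3K : (3 : RatFunc k) ≠ 0 := by
    have : algebraMap k (RatFunc k) 3 ≠ 0 := by simpa using h3
    rwa [map_ofNat] at this
  have hprod : 0 < d * e := by omega
  have hd : 0 < d := Nat.pos_of_mul_pos_right hprod
  have he : 0 < e := Nat.pos_of_mul_pos_left hprod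
  have hε : IsPrimitiveRoot (ω ^ d) e := hω.pow (by omega) hed
  have hδ : IsPrimitiveRoot (ω ^ e) d := hω.pow (by omega) (by rw [hed, mul_comm])
  have hω0 : ω ≠ 0 := hω.ne_zero (by omega)
  have hpe : ¬ p ∣ e := by
    intro hd'
    have h1 : p ∣ p ^ ν + 1 := by rw [hed]; exact hd'.mul_left d
    have h3 : p ∣ 1 := (Nat.dvd_add_right (dvd_pow_self p (by omega))).1 h1
    exact (Fact.out : p.Prime).one_lt.ne' (Nat.dvd_one.1 h3)
  have hek : (e : k) ≠ 0 := by
    rw [Ne, CharP.cast_eq_zero_iff k p]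
    exact hpe
  set T : RatFunc k := A (X : k[X]) with hT
  have hTt : Transcendental k T := by
    intro hal
    have h5 := (isAlgebraic_algebraMap_iff (R := k) (S := k[X]) (A := RatFunc k)
      (RatFunc.algebraMap_injective k)).1 hal
    exact Polynomial.transcendental_X k h5
  have hT0 : T ≠ 0 := fun h0 => hTt (by rw [h0]; exact isAlgebraic_zero)
  have hWK : (crv d T).baseChange (RatFunc k) = crv d T := by
    ext
    · rfl
    · rfl
    · rfl
    · rfl
    · rfl
  let ι := {z : k // z ∈ nthRootsFinset d (1 : k)}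
  letI : Fintype ι := Finset.Subtype.fintype _
  have hι : ∀ z : ι, z.1 ^ d = 1 := fun z => (mem_nthRootsFinset hd 1).1 z.2
  have hcard : Fintype.card ι = d := by
    rw [Fintype.card_coe, hδ.card_nthRootsFinset]
  -- roots
  have hch : ∀ z : ι, ∃ s : k, s ≠ 0 ∧ s ^ e = z.1 := by
    intro z
    haveI : NeZero d := ⟨hd.ne'⟩
    obtain ⟨j, -, hj⟩ := hδ.eq_pow_of_pow_eq_one (hι z)
    exact ⟨ω ^ j, pow_ne_zero _ hω0, by rw [← hj, ← pow_mul, ← pow_mul, mul_comm]⟩
  choose s hs0 hs using hch
  -- the points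
  have hpt := fun z : ι => points h6 hν hm hed hi hω hTt (hι z)
  choose R hR using hpt
  let oo : ι → RatFunc k → ℤ := fun w x => ordAt (X - C (s w) : k[X]) (irr (s w)) (phi he x)
  have hoo : ∀ w, IsOrd (oo w) := by
    intro w x y hx hy
    show ordAt _ _ (phi he (x * y)) = ordAt _ _ (phi he x) + ordAt _ _ (phi he y)
    rw [map_mul]
    exact isOrd_at (s w) _ _ ((_root_.map_ne_zero _).2 hx) ((_root_.map_ne_zero _).2 hy)
  have hoc : ∀ (w : ι) (c : k), c ≠ 0 → oo w (algebraMap k (RatFunc k) c) = 0 := by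
    intro w c hc
    show ordAt _ _ (phi he (algebraMap k (RatFunc k) c)) = 0
    rw [← A_C, phi_A, expand_C]
    exact ordAt_const _ _ hc
  have hroot : HasRoot (crv d T).toAffine ((2 * 1 - T ^ d) / 3) := hasRoot_mid h3K 1 (T ^ d)
  have hrootK : HasRoot ((crv d T).baseChange (RatFunc k)).toAffine ((2 * 1 - T ^ d) / 3) :=
    hasRoot_base (L := RatFunc k) hroot
  have hval0 : ∀ z w : ι, ((oo w (del ((crv d T).baseChange (RatFunc k)).toAffine
      ((2 * 1 - T ^ d) / 3) (R z)) : ℤ) : ZMod 2) = if w = z then 1 else 0 := by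
    intro z w
    have h5 := hR z (RatFunc k) (phi he) (ordAt (X - C (s w) : k[X]) (irr (s w))) (isOrd_at (s w))
      (splits he hε) (fun c hc => hoc w c hc)
    refine h5.trans ?_
    have e1 : phi he (T - algebraMap k (RatFunc k) z.1) = A (X ^ e - C z.1) := by
      have e2 : T - algebraMap k (RatFunc k) z.1 = A (X - C z.1) := by
        rw [hT, ← A_C]
        exact (map_sub (algebraMap k[X] (RatFunc k)) _ _).symm
      rw [e2, phi_A, map_sub, expand_X, expand_C]
    rw [e1, ord_val hek (hs0 w), hs w]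
    by_cases hwz : w = z
    · rw [if_pos hwz, if_pos (congrArg Subtype.val hwz)]
    · rw [if_neg hwz, if_neg (fun hc => hwz (Subtype.ext hc))]
  have h22 : Set.Finite {P : Pt (crv d T) (RatFunc k) | P + P = 0} ∧
      Set.ncard {P : Pt (crv d T) (RatFunc k) | P + P = 0} ≤ 4 :=
    card_two_of_eq hWK (short_card_two h2K h3K (1 : RatFunc k) (T ^ d))
  by_cases hde : Even d
  · have hrk : rk d = d - 2 := if_pos hde
    rw [hrk]
    let φ : Pt (crv d T) (RatFunc k) →+ (ι → ZMod 2) :=
      AddMonoidHom.pi fun w => parHom hrootK (oo w) (hoo w)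
    have hval : ∀ z w : ι, φ (R z) w = if w = z then 1 else 0 := hval0
    have hsurj := surjective_of_single φ R hval
    have hfin := exists_independent φ hsurj h22.1 h22.2
    rw [hcard] at hfin
    exact hfin
  · have hrk : rk d = d - 1 := if_neg hde
    rw [hrk]
    have hdo : Odd d := Nat.not_even_iff_odd.1 hde
    -- the point of order two
    have hroot0 : HasRoot (crv d T).toAffine (-(1 + T ^ d) / 3) := hasRoot_fst h3K 1 (T ^ d)
    have hroot0K : HasRoot ((crv d T).baseChange (RatFunc k)).toAffine (-(1 + T ^ d) / 3) :=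
      hasRoot_base (L := RatFunc k) hroot0
    have hdd : 3 * (-(1 + T ^ d) / 3) ^ 2 + aOf 1 (T ^ d) = T ^ d := by
      unfold aOf
      field_simp
      ring
    have hn0 : ((crv d T).baseChange (RatFunc k)).toAffine.Nonsingular (-(1 + T ^ d) / 3) 0 := by
      rw [hWK, nonsingular_iff]
      constructor
      · rw [equation_iff]
        have h5 : (-(1 + T ^ d) / 3) ^ 3 + 0 * (-(1 + T ^ d) / 3) ^ 2 +
          aOf 1 (T ^ d) * (-(1 + T ^ d) / 3) + bOf 1 (T ^ d) = 0 := hroot0.root
        show (0 : RatFunc k) ^ 2 + 0 * _ * 0 + 0 * 0 = _ ^ 3 + 0 * _ ^ 2 + aOf 1 (T ^ d) * _ +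
          bOf 1 (T ^ d)
        rw [h5]
        ring
      · left
        show (0 : RatFunc k) * 0 ≠ 3 * (-(1 + T ^ d) / 3) ^ 2 + 2 * 0 * _ + aOf 1 (T ^ d)
        intro h0
        apply pow_ne_zero d hT0
        rw [← hdd]
        linear_combination -h0
    let T0 : Pt (crv d T) (RatFunc k) := Point.some _ _ hn0
    have hdel0 : del ((crv d T).baseChange (RatFunc k)).toAffine (-(1 + T ^ d) / 3) T0 = T ^ d := by
      show (if (-(1 + T ^ d) / 3) = (-(1 + T ^ d) / 3) then
        dd ((crv d T).baseChange (RatFunc k)).toAffine (-(1 + T ^ d) / 3) else _) = T ^ d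
      rw [if_pos rfl]
      refine Eq.trans ?_ hdd
      show 3 * (-(1 + T ^ d) / 3) ^ 2 + 2 * 0 * (-(1 + T ^ d) / 3) + aOf 1 (T ^ d) = _
      ring
    have hdel1 : del ((crv d T).baseChange (RatFunc k)).toAffine ((2 * 1 - T ^ d) / 3) T0 = -1 := by
      have e5 : -(1 + T ^ d) / 3 - (2 * 1 - T ^ d) / 3 = -1 := by
        field_simp
        ring
      show (if (-(1 + T ^ d) / 3) = ((2 * 1 - T ^ d) / 3) then _ else
        (-(1 + T ^ d) / 3) - ((2 * 1 - T ^ d) / 3)) = (-1 : RatFunc k)
      rw [if_neg (fun h0 => by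
        rw [h0, sub_self] at e5
        exact one_ne_zero (neg_eq_zero.1 e5.symm)), e5]
    let o0 : RatFunc k → ℤ := ordAt (X - C (0 : k)) (irr 0)
    have ho0 : IsOrd o0 := isOrd_at 0
    let φ : Pt (crv d T) (RatFunc k) →+ (Option ι → ZMod 2) :=
      AddMonoidHom.pi fun o => match o with
        | none => parHom hroot0K o0 ho0
        | some w => parHom hrootK (oo w) (hoo w)
    have v1 : ∀ z w : ι, φ (R z) (some w) = if w = z then 1 else 0 := hval0
    have v2 : φ T0 none = 1 := by
      show ((o0 (del ((crv d T).baseChange (RatFunc k)).toAffine (-(1 + T ^ d) / 3) T0) : ℤ) :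
        ZMod 2) = 1
      have e6 : o0 T = -1 := by
        have e7 : T = A (X - C (0 : k)) := by rw [hT, C_0, sub_zero]
        rw [e7]
        exact ordAt_self _ _
      rw [hdel0, ho0.pow hT0, e6]
      obtain ⟨r, hr⟩ := hdo
      rw [hr]
      push_cast
      have : (2 : ZMod 2) = 0 := by decide
      rw [this, zero_mul, zero_add]
      decide
    have v3 : ∀ w : ι, φ T0 (some w) = 0 := by
      intro w
      show ((oo w (del ((crv d T).baseChange (RatFunc k)).toAffine ((2 * 1 - T ^ d) / 3) T0) : ℤ) :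
        ZMod 2) = 0
      have e8 : (-1 : RatFunc k) = algebraMap k (RatFunc k) (-1) := by rw [map_neg, map_one]
      rw [hdel1, e8, hoc w _ (neg_ne_zero.2 one_ne_zero), Int.cast_zero]
    let Q : Option ι → Pt (crv d T) (RatFunc k) := fun o => match o with
      | none => T0
      | some z => R z + (φ (R z) none).val • T0
    have hvQ : ∀ a b : Option ι, φ (Q a) b = if b = a then 1 else 0 := by
      intro a b
      rcases a with _ | z
      · rcases b with _ | w
        · rw [if_pos rfl]
          exact v2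
        · rw [if_neg (by simp)]
          exact v3 w
      · have e9 : φ (Q (some z)) = φ (R z) + (φ (R z) none).val • φ T0 := by
          show φ (R z + (φ (R z) none).val • T0) = _
          rw [map_add, map_nsmul]
        rcases b with _ | w
        · rw [if_neg (by simp), e9, Pi.add_apply, Pi.smul_apply, v2, nsmul_one, ZMod.natCast_val,
            ZMod.cast_id]
          exact CharTwo.add_self_eq_zero _
        · rw [e9, Pi.add_apply, Pi.smul_apply, v3, smul_zero, add_zero, v1]
          by_cases hwz : w = z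
          · rw [if_pos hwz, if_pos (by rw [hwz])]
          · rw [if_neg hwz, if_neg (fun hc => hwz (Option.some.inj hc))]
    have hsurj := surjective_of_single φ Q hvQ
    have hfin := exists_independent φ hsurj h22.1 h22.2
    rw [Fintype.card_option, hcard] at hfin
    exact hfin

end rat

section low

variable {k K : Type} [Field k] [Field K] [Algebra k K]

/-- The points on the pullbacks. -/
theorem lower (h6 : (6 : k) ≠ 0) {p : ℕ} [Fact p.Prime] [CharP k p] {ν m e d : ℕ} (hν : 1 ≤ ν)
    (hm : p ^ ν + 1 = 2 * m) (hed : p ^ ν + 1 = d * e) {i : k} (hi : i ^ 2 = -1) {ω : k}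
    (hω : IsPrimitiveRoot ω (p ^ ν + 1)) {h : K} (hh : Transcendental k h) :
    ∃ P : Fin (rk d) → (crv d h).toAffine.Point, LinearIndependent ℤ P := by
  obtain ⟨P, hP⟩ := lower_rat h6 hν hm hed hi hω
  have hinj : Function.Injective (aeval h : k[X] →ₐ[k] K).toRingHom :=
    transcendental_iff_injective.1 hh
  let f : RatFunc k →+* K := IsFractionRing.lift (A := k[X]) (K := RatFunc k) hinj
  have hf : f (A X) = h := by
    have := IsFractionRing.lift_algebraMap (A := k[X]) (K := RatFunc k) hinj X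
    refine this.trans ?_
    exact aeval_X h
  letI : Algebra (RatFunc k) K := f.toAlgebra
  have hfa : algebraMap (RatFunc k) K = f := rfl
  have hWK : (crv d (A (X : k[X]))).baseChange K = crv d h := by
    have hA : algebraMap (RatFunc k) K (aOf 1 (A X ^ d)) = aOf 1 (h ^ d) := by
      rw [hfa]
      unfold aOf
      simp only [map_sub, map_add, map_mul, map_pow, map_neg, map_div₀, map_ofNat, map_one, hf]
    have hB : algebraMap (RatFunc k) K (bOf 1 (A X ^ d)) = bOf 1 (h ^ d) := by
      rw [hfa]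
      unfold bOf
      simp only [map_sub, map_add, map_mul, map_pow, map_neg, map_div₀, map_ofNat, map_one, hf]
    ext
    · exact map_zero _
    · exact map_zero _
    · exact map_zero _
    · exact hA
    · exact hB
  let g : Pt (crv d (A (X : k[X]))) (RatFunc k) →+ Pt (crv d (A (X : k[X]))) K :=
    act (crv d (A (X : k[X]))) (incl (RatFunc k) (RatFunc k) K)
  have hg : Function.Injective g := act_inj _ _
  have hind : LinearIndependent ℤ (fun j => g (P j)) :=
    hP.map' g.toIntLinearMap (LinearMap.ker_eq_bot.2 hg)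
  have hfin : ∃ P : Fin (rk d) → ((crv d (A (X : k[X]))).baseChange K).toAffine.Point,
      LinearIndependent ℤ P := ⟨_, hind⟩
  exact hWK ▸ hfin

end low

end Pool.Agent.TH958.T9
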