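import Pool.Agent.TH958.T9.Low

/-!
The order of vanishing for Legendre's curve `y ^ 2 = x (x - 1) (x - h ^ d)` over a function field,
for all `d`.
-/

set_option autoImplicit false
set_option linter.all false
set_option maxHeartbeats 4000000

open Polynomial FF

namespace Pool.Agent.TH958.T9

open Pool.Agent.W343.BSD Pool.Agent.W309.RK
open Pool.Agent.TH958.T4 (ord_sub_const ord_shift ord_of_zero ne_of_pos ord_nonneg_sub ord_one_sub
  ord_one_sub' fac_sub twoPart_odd sum_insert_le)

variable {k K : Type} [Field k] [Finite k] [Field K] [Algebra k K] [FF.IsFF k K]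

theorem upper (h6 : (6 : k) ≠ 0) (hc : constDeg k K = 1) (hcl : Odd (S.classNumber k K)) {d : ℕ}
    (hd0 : 0 < d) {ω : k} (hω : IsPrimitiveRoot ω d) {h : K} (hA : T8.Adm k d h)
    (M : ℕ) (hM : S.VanishesTo k (aOf 1 (h ^ d)) (bOf 1 (h ^ d)) M) : M ≤ rk d := by
  classical
  obtain ⟨h2K, h3K, hh0, hhc, hne⟩ := T8.facts h6 hd0 hA
  obtain ⟨v0, hv0, hv0d, hv0u⟩ := hA.zero
  obtain ⟨vi, hvi, hvid, hviu⟩ := hA.pole
  set S0 := nthRootsFinset d (1 : k) with hS0
  have hS0' : ∀ z : k, z ∈ S0 ↔ z ^ d = 1 := fun z => by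
    rw [hS0, mem_nthRootsFinset hd0]
  have hch : ∀ z : k, ∃ v : Place k K, z ∈ S0 → (0 < v.ord (h - algebraMap k K z) ∧
      Odd (v.ord (h - algebraMap k K z)) ∧ Odd (S.deg v) ∧
      ∀ w : Place k K, 0 < w.ord (h - algebraMap k K z) → w = v) := by
    intro z
    by_cases hz : z ∈ S0
    · obtain ⟨v, hv⟩ := hA.shift z ((hS0' z).1 hz)
      exact ⟨v, fun _ => hv⟩
    · exact ⟨v0, fun h => absurd h hz⟩
  choose V hV using hch
  have hsh0 : ∀ z : k, h - algebraMap k K z ≠ 0 := fun z => sub_ne_zero.2 (hhc z)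
  have hfac : 1 - h ^ d = -∏ z ∈ S0, (h - algebraMap k K z) := by
    rw [← fac_sub hd0 hω]
    ring
  have hord : ∀ v : Place k K, v.ord (1 - h ^ d) = ∑ z ∈ S0, v.ord (h - algebraMap k K z) := by
    intro v
    rw [hfac, v.ord_neg, T4.ord_prod v _ _ (fun z _ => hsh0 z)]
  set B : Finset (Place k K) := insert vi (insert v0 (S0.image V)) with hB
  have hgood : ∀ v : Place k K, v ∉ B → v.ord (h ^ d) = v.ord 1 ∧ v.ord (1 - h ^ d) = v.ord 1 ∧
      Even (v.ord (1 : K)) := by
    intro v hv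
    rw [hB, Finset.mem_insert, Finset.mem_insert, Finset.mem_image] at hv
    push Not at hv
    obtain ⟨g1, g2, g3⟩ := hv
    have hz : v.ord h = 0 := by
      rcases lt_trichotomy (v.ord h) 0 with h1 | h1 | h1
      · exact absurd (hviu v h1) g1
      · exact h1
      · exact absurd (hv0u v h1) g2
    rw [v.ord_one, v.ord_pow, hz, mul_zero, hord]
    refine ⟨rfl, Finset.sum_eq_zero fun z hz' => ?_, Even.zero⟩
    have h1 := ord_nonneg_sub v hz.ge z
    have h3 : ¬ 0 < v.ord (h - algebraMap k K z) := fun h5 =>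
      g3 z hz' ((hV z hz').2.2.2 v h5).symm
    omega
  have hsa := sa k K h6 hc hcl 1 (h ^ d) one_ne_zero (pow_ne_zero _ hh0) hne B hgood M hM
  set F : Place k K → ℕ := fun v =>
    (if Even (min (v.ord (1 : K)) (v.ord (h ^ d))) then 1 else 2) * twoPart (S.deg v) with hF
  have hev : ∀ v : Place k K, 0 ≤ v.ord h → Even (min (v.ord (1 : K)) (v.ord (h ^ d))) := by
    intro v hv
    rw [v.ord_one, v.ord_pow, min_eq_left (mul_nonneg (Int.natCast_nonneg d) hv)]
    exact Even.zero
  have hF1 : ∀ v : Place k K, 0 ≤ v.ord h → Odd (S.deg v) → F v = 1 := by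
    intro v hv0 hv
    rw [hF]
    simp only
    rw [if_pos (hev v hv0), twoPart_odd hv]
  have hnn : ∀ z ∈ S0, 0 ≤ (V z).ord h := by
    intro z hz
    have hz0 : z ≠ 0 := by
      rintro rfl
      have := (hS0' 0).1 hz
      rw [zero_pow hd0.ne'] at this
      exact zero_ne_one this
    rw [(ord_of_zero (V z) (hV z hz).1 hz0).2]
  have hcard : S0.card = d := hω.card_nthRootsFinset
  have f4 : ∑ v ∈ S0.image V, F v ≤ d := by
    calc ∑ v ∈ S0.image V, F v = ∑ v ∈ S0.image V, 1 := by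
          refine Finset.sum_congr rfl fun v hv => ?_
          obtain ⟨z, hz, rfl⟩ := Finset.mem_image.1 hv
          exact hF1 _ (hnn z hz) (hV z hz).2.2.1
      _ = (S0.image V).card := by rw [Finset.sum_const, smul_eq_mul, mul_one]
      _ ≤ S0.card := Finset.card_image_le
      _ = d := hcard
  have f5 : ∑ v ∈ B, F v ≤ F vi + (F v0 + ∑ v ∈ S0.image V, F v) :=
    (sum_insert_le _ _ _).trans (Nat.add_le_add_left (sum_insert_le _ _ _) _)
  have f6 : M + 4 ≤ ∑ v ∈ B, F v := hsa
  rw [hF1 v0 hv0.le hv0d] at f5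
  unfold rk
  by_cases hd2 : Even d
  · rw [if_pos hd2]
    have f7 : F vi = 1 := by
      rw [hF]
      simp only
      rw [if_pos (by
        rw [vi.ord_one, vi.ord_pow, min_eq_right (mul_nonpos_of_nonneg_of_nonpos
          (Int.natCast_nonneg d) hvi.le)]
        exact Even.mul_right (by exact_mod_cast hd2) _), twoPart_odd hvid]
    omega
  · rw [if_neg hd2]
    have f7 : F vi ≤ 2 := by
      rw [hF]
      simp only
      rw [twoPart_odd hvid, mul_one]
      split_ifs <;> omega
    omega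

end Pool.Agent.TH958.T9
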